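import Pool.Agent.Run7.h386.PW.Iface

/-! Piece GAG: the gain from a label, generic case. -/

set_option autoImplicit false

namespace Pool.Agent.Run7.h975.PW

open Finset Pool.Agent.Run7.h386.DE Pool.Agent.Run7.h386.DL Pool.Agent.Run7.h386.PW
open scoped Classical

theorem gag_aux (hU : S_USE) {κ : Type*} {α δ K M : ℝ} {T : Finset ℕ} (hI : IHypW α δ K T M)
    (hα : 0 ≤ α) (hδ : 0 ≤ δ) (hK : 0 ≤ K) {W W' : Finset (ℤ × ℤ)} (hsub : W' ⊆ W)
    (hM : (W.card : ℝ) ≤ M) (lab : ℤ × ℤ → κ) (R : Finset κ) (hR : ∀ w ∈ W', lab w ∈ R)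
    {C A : ℕ} (hA : 1 ≤ A) (hC1 : 1 ≤ C) (hC : R.card ≤ C) (S : Finset ℕ) (hS : S ⊆ T)
    (hg : ∀ t ∈ T, t ∉ S → ∀ w ∈ W', ∀ w' ∈ W', ph (t : ℤ) w = ph (t : ℤ) w' → lab w = lab w')
    (hcl : ∀ r ∈ R, A * (W'.filter fun w' => lab w' = r).card ≤ W.card) :
    TW α T 1 W' ≤ (A : ℝ) ^ (-(α * δ)) * (T.card * K * (W.card : ℝ) ^ (α * δ)) * W'.card +
      ((C : ℝ) ^ α - 1) * ∑ t ∈ S, NE α (t : ℤ) W := by
  have hA0 : (0 : ℝ) < A := by exact_mod_cast hA
  have hn : 0 ≤ (W.card : ℝ) := Nat.cast_nonneg _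
  have hmM : (W.card : ℝ) / A ≤ M := le_trans (div_le_self hn (by exact_mod_cast hA)) hM
  have hCα : 1 ≤ (C : ℝ) ^ α := Real.one_le_rpow (by exact_mod_cast hC1) hα
  have h1 : ∀ r ∈ R, TW α T 1 (W'.filter fun w' => lab w' = r) ≤
      T.card * K * ((W.card : ℝ) / A) ^ (α * δ) * (W'.filter fun w' => lab w' = r).card := by
    intro r hr
    refine hU α δ K M T hI hα hδ hK 1 one_ne_zero _ _ (by positivity) ?_ hmM
    rw [le_div_iff₀ hA0]
    have h3 : (A : ℝ) * (W'.filter fun w' => lab w' = r).card ≤ W.card := by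
      exact_mod_cast hcl r hr
    linarith
  have h2 : ∀ t ∈ T, NE α (t : ℤ) W' ≤ ∑ r ∈ R, NE α (t : ℤ) (W'.filter fun w' => lab w' = r) +
      if t ∈ S then ((C : ℝ) ^ α - 1) * NE α (t : ℤ) W else 0 := by
    intro t ht
    split_ifs with hts
    · have h3 : NE α (t : ℤ) W' ≤ (R.card : ℝ) ^ α *
          ∑ r ∈ R, NE α (t : ℤ) (W'.filter fun w' => lab w' = r) :=
        NE_sum_le hα R (fun r => W'.filter fun w' => lab w' = r)
          (fun y hy => ⟨_, hR y hy, Finset.mem_filter.2 ⟨hy, rfl⟩⟩)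
          (fun r _ => Finset.filter_subset _ _)
      have h4 := NE_super hα (t := (t : ℤ)) lab R hR
      have h5 : NE α (t : ℤ) W' ≤ NE α (t : ℤ) W := NE_mono hα hsub
      have h6 : (R.card : ℝ) ^ α ≤ (C : ℝ) ^ α :=
        Real.rpow_le_rpow (Nat.cast_nonneg _) (by exact_mod_cast hC) hα
      obtain ⟨s, hs⟩ : ∃ s : ℝ, s = ∑ r ∈ R, NE α (t : ℤ) (W'.filter fun w' => lab w' = r) :=
        ⟨_, rfl⟩
      rw [← hs] at h3 h4 ⊢
      have hs0 : 0 ≤ s := by rw [hs]; exact Finset.sum_nonneg fun _ _ => NE_nonneg _ _ _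
      have h7 := mul_le_mul_of_nonneg_right h6 hs0
      have h8 := mul_le_mul_of_nonneg_left (h4.trans h5) (by linarith : 0 ≤ (C : ℝ) ^ α - 1)
      linarith
    · rw [add_zero, NE_label lab R hR (hg t ht hts)]
  have h9 : ∑ r ∈ R, ((W'.filter fun w' => lab w' = r).card : ℝ) = W'.card := by
    rw [Finset.card_eq_sum_card_fiberwise (f := lab) (t := R) (s := W')
      (fun y hy => by exact_mod_cast hR y (by exact_mod_cast hy))]
    push_cast
    rfl
  have h10 : TW α T 1 W' = ∑ t ∈ T, NE α (t : ℤ) W' := by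
    unfold TW
    exact Finset.sum_congr rfl fun t _ => by rw [one_mul]
  have h11 : ∀ V : Finset (ℤ × ℤ), TW α T 1 V = ∑ t ∈ T, NE α (t : ℤ) V := by
    intro V
    unfold TW
    exact Finset.sum_congr rfl fun t _ => by rw [one_mul]
  rw [h10]
  calc ∑ t ∈ T, NE α (t : ℤ) W' ≤ ∑ t ∈ T, (∑ r ∈ R, NE α (t : ℤ) (W'.filter fun w' => lab w' = r) +
        if t ∈ S then ((C : ℝ) ^ α - 1) * NE α (t : ℤ) W else 0) := Finset.sum_le_sum h2
    _ = ∑ r ∈ R, TW α T 1 (W'.filter fun w' => lab w' = r) +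
        ((C : ℝ) ^ α - 1) * ∑ t ∈ S, NE α (t : ℤ) W := by
        rw [Finset.sum_add_distrib, Finset.sum_comm, Finset.sum_ite_mem,
          Finset.inter_eq_right.2 hS, Finset.mul_sum]
        congr 1
        exact Finset.sum_congr rfl fun r _ => (h11 _).symm
    _ ≤ ∑ r ∈ R, T.card * K * ((W.card : ℝ) / A) ^ (α * δ) *
          (W'.filter fun w' => lab w' = r).card +
        ((C : ℝ) ^ α - 1) * ∑ t ∈ S, NE α (t : ℤ) W :=
        add_le_add (Finset.sum_le_sum h1) le_rfl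
    _ = _ := by
        rw [← Finset.mul_sum, h9, div_rpow_mul hn]
        ring

/-- piece GAG -/
theorem t_GAG : S_USE → S_GAG := by
  intro hU α δ K M T hI hα hδ hK W W' hsub hM lab C A hA hC1 hC S hS hg hcl
  refine gag_aux hU hI hα hδ hK hsub hM lab (W'.image lab)
    (fun w hw => Finset.mem_image_of_mem _ hw) hA hC1 ?_ S hS hg ?_
  · convert hC
  · intro r hr
    obtain ⟨w, hw, rfl⟩ := Finset.mem_image.1 hr
    convert hcl w hw

end Pool.Agent.Run7.h975.PW
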