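import Pool.Agent.Run7.h386.PW.Iface

/-! Piece IND: the energy theorem from the step. -/

set_option autoImplicit false

namespace Pool.Agent.Run7.h975.PW

open Finset Pool.Agent.Run7.h386.DE Pool.Agent.Run7.h386.DL Pool.Agent.Run7.h386.PW
open scoped Classical

theorem NE_card {α : ℝ} (hα : 0 ≤ α) (t : ℤ) (W : Finset (ℤ × ℤ)) :
    NE α t W ≤ W.card * (W.card : ℝ) ^ α :=
  NE_le hα fun z => by exact_mod_cast Finset.card_le_card (Finset.filter_subset _ _)

theorem sum_NE_le {α b : ℝ} {T : Finset ℕ} {W : Finset (ℤ × ℤ)}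
    (h : ∀ t ∈ T, NE α (t : ℤ) W ≤ b) : ∑ t ∈ T, NE α (t : ℤ) W ≤ T.card * b := by
  rw [← nsmul_eq_mul, ← Finset.sum_const]
  exact Finset.sum_le_sum h

theorem induction_stepW (hSTP : S_STP) {δ c β α ε₀ S₀ : ℝ} {A₀ AB AX N₀ v : ℕ} (hδ : 0 < δ)
    (hc : 0 ≤ c) (hβ : 0 < β) (hα : 0 < α) (hAA : A₀ ≤ AB) (hcn : Cn α δ c β 1 A₀ AB AX)
    (hgen : ∀ P : Finset ℕ, Ad P → N₀ ≤ P.card →
      ∀ w : Finset ℕ → ℝ, (∀ t, 0 ≤ w t) → 0 < ∑ s ∈ P.powerset, w s →
      (∀ s ∈ P.powerset, w s * 2 ^ P.card ≤ Real.exp (ε₀ * P.card) * ∑ s ∈ P.powerset, w s) →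
      ∃ m ∈ P, ∃ q : ℕ, q.Prime ∧ q ∣ m ∧ ∀ r : ℕ → (N : ℕ) → ZMod N,
        ∑ s ∈ P.powerset, w s * ca r m q s ≤ β * ∑ s ∈ P.powerset, w s)
    (hε₀ : 0 < ε₀) (hv : N₀ ≤ v) (hS₀ : α * S₀ ≤ ε₀ * v) :
    ∀ (j : ℕ) (P : Finset ℕ), Ad P → P.card = v + j → ∀ W : Finset (ℤ × ℤ),
      W.Nonempty → Real.log W.card ≤ S₀ →
      ∑ t ∈ mul P, NE α (t : ℤ) W ≤ (mul P).card * (W.card : ℝ) ^ (1 + α * δ) *
        ((AB : ℝ) ^ α * Real.exp (α * max (Real.log W.card - c * j) 0)) := by
  have hAB1 : (1 : ℝ) ≤ AB := by exact_mod_cast hcn.AB1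
  have hABα : 1 ≤ (AB : ℝ) ^ α := Real.one_le_rpow hAB1 hα.le
  intro j
  induction j with
  | zero =>
    intro P hP hPc W hW _
    have hn1 : (1 : ℝ) ≤ W.card := by exact_mod_cast hW.card_pos
    have hn0 : (0 : ℝ) < W.card := by linarith
    refine (sum_NE_le fun t _ => NE_card hα.le (t : ℤ) W).trans ?_
    rw [mul_assoc ((mul P).card : ℝ)]
    refine mul_le_mul_of_nonneg_left ?_ (Nat.cast_nonneg _)
    have h1 : (W.card : ℝ) ≤ (W.card : ℝ) ^ (1 + α * δ) := by
      calc (W.card : ℝ) = (W.card : ℝ) ^ (1 : ℝ) := (Real.rpow_one _).symm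
        _ ≤ _ := Real.rpow_le_rpow_of_exponent_le hn1 (by
            have : 0 ≤ α * δ := by positivity
            linarith)
    have h2 : (W.card : ℝ) ^ α ≤ (AB : ℝ) ^ α *
        Real.exp (α * max (Real.log W.card - c * (0 : ℕ)) 0) := by
      have h3 : (W.card : ℝ) ^ α ≤
          Real.exp (α * max (Real.log W.card - c * (0 : ℕ)) 0) := by
        rw [Real.rpow_def_of_pos hn0, mul_comm]
        refine Real.exp_le_exp.2 (mul_le_mul_of_nonneg_left ?_ hα.le)
        simp
      calc _ ≤ _ := h3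
        _ = 1 * Real.exp (α * max (Real.log W.card - c * (0 : ℕ)) 0) :=
            (one_mul _).symm
        _ ≤ _ := mul_le_mul_of_nonneg_right hABα (Real.exp_pos _).le
    exact mul_le_mul h1 h2 (by positivity) (by positivity)
  | succ j ih =>
    intro P hP hPc W hW hSz
    have hn1 : (1 : ℝ) ≤ W.card := by exact_mod_cast hW.card_pos
    have hn0 : (0 : ℝ) < W.card := by linarith
    by_cases hsmall : W.card ≤ AB
    · -- small sets
      refine (sum_NE_le fun t _ => NE_card hα.le (t : ℤ) W).trans ?_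
      rw [mul_assoc ((mul P).card : ℝ)]
      refine mul_le_mul_of_nonneg_left ?_ (Nat.cast_nonneg _)
      have h1 : (W.card : ℝ) ≤ (W.card : ℝ) ^ (1 + α * δ) := by
        calc (W.card : ℝ) = (W.card : ℝ) ^ (1 : ℝ) := (Real.rpow_one _).symm
          _ ≤ _ := Real.rpow_le_rpow_of_exponent_le hn1 (by
              have : 0 ≤ α * δ := by positivity
              linarith)
      refine mul_le_mul h1 ?_ (by positivity) (by positivity)
      calc (W.card : ℝ) ^ α ≤ (AB : ℝ) ^ α :=
            Real.rpow_le_rpow hn0.le (by exact_mod_cast hsmall) hα.le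
        _ = (AB : ℝ) ^ α * 1 := (mul_one _).symm
        _ ≤ _ := mul_le_mul_of_nonneg_left (Real.one_le_exp (by positivity)) (by positivity)
    push Not at hsmall
    -- the weights
    set w : Finset ℕ → ℝ := fun s => NE α (pd s : ℤ) W with hw
    have hWge : (2 : ℝ) ^ P.card * (W.card : ℝ) ≤ ∑ s ∈ P.powerset, w s := by
      have h1 : (2 : ℝ) ^ P.card = (P.powerset.card : ℝ) := by
        rw [Finset.card_powerset]; push_cast; rfl
      rw [h1, ← nsmul_eq_mul, ← Finset.sum_const]
      refine Finset.sum_le_sum fun t _ => ?_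
      exact card_le_NE hα.le _ _
    have hWpos : 0 < ∑ s ∈ P.powerset, w s :=
      lt_of_lt_of_le (mul_pos (by positivity) hn0) hWge
    have hvP : (v : ℝ) ≤ P.card := by exact_mod_cast (by omega : v ≤ P.card)
    obtain ⟨m, hm, q, hq, hqm, hpg⟩ := hgen P hP (by omega) w (fun t => NE_nonneg _ _ _) hWpos (by
      intro s _
      have h1 := NE_card hα.le (pd s : ℤ) W
      have h2 : (W.card : ℝ) ^ α ≤ Real.exp (ε₀ * P.card) := by
        rw [Real.rpow_def_of_pos hn0]
        refine Real.exp_le_exp.2 ?_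
        have h3 : α * Real.log W.card ≤ α * S₀ := mul_le_mul_of_nonneg_left hSz hα.le
        have h4 : ε₀ * v ≤ ε₀ * P.card := mul_le_mul_of_nonneg_left hvP hε₀.le
        linarith
      calc w s * 2 ^ P.card ≤ (W.card * Real.exp (ε₀ * P.card)) * 2 ^ P.card := by
            refine mul_le_mul_of_nonneg_right (h1.trans ?_) (by positivity)
            exact mul_le_mul_of_nonneg_left h2 hn0.le
        _ = Real.exp (ε₀ * P.card) * (2 ^ P.card * W.card) := by ring
        _ ≤ _ := mul_le_mul_of_nonneg_left hWge (Real.exp_pos _).le)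
    have hPe : Ad (P.erase m) := hP.mono (Finset.erase_subset _ _)
    set T := mul (P.erase m) with hT
    have hm2 := hP.two m hm
    have hTq : ∀ t ∈ T, ¬ q ∣ t := by
      intro t ht hqt
      obtain ⟨s, hs, rfl⟩ := Finset.mem_image.1 ht
      rw [Finset.mem_powerset] at hs
      have h1 : Nat.Coprime m (pd s) := by
        unfold pd
        refine Nat.Coprime.prod_right fun y hy => hP.cop m hm y ?_ ?_
        · exact Finset.mem_of_mem_erase (hs hy)
        · exact (Finset.ne_of_mem_erase (hs hy)).symm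
      exact hq.one_lt.ne' (Nat.eq_one_of_dvd_coprimes h1 hqm hqt)
    set a := m.factorization q with ha
    have ha1 : 1 ≤ a := hq.factorization_pos_of_dvd (by omega) hqm
    have hqam : q ^ a ∣ m := Nat.ordProj_dvd m q
    obtain ⟨S, hS⟩ : ∃ S : ℝ, S = Real.log W.card := ⟨_, rfl⟩
    -- the sum over all the multipliers
    have hpdins : ∀ s ∈ (P.erase m).powerset, pd (insert m s) = m * pd s := by
      intro s hs
      rw [Finset.mem_powerset] at hs
      exact Finset.prod_insert fun h => Finset.notMem_erase m P (hs h)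
    have hWe : TW α T 1 W + TW α T m W = ∑ s ∈ P.powerset, w s := by
      unfold TW
      rw [sum_powerset_erase hm, hT, sum_mul_eq hPe (fun t => NE α (1 * (t : ℤ)) W),
        sum_mul_eq hPe (fun t => NE α ((m : ℤ) * t) W)]
      congr 1
      · refine Finset.sum_congr rfl fun s hs => ?_
        simp only [hw]
        rw [one_mul]
      · refine Finset.sum_congr rfl fun s hs => ?_
        simp only [hw]
        rw [hpdins s hs]
        push_cast
        rfl
    have hK1 : 1 ≤ (AB : ℝ) ^ α * Real.exp (α * max (S - c * j) 0) := by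
      have h1 : 1 ≤ Real.exp (α * max (S - c * j) 0) := Real.one_le_exp (by positivity)
      nlinarith
    have hst := hSTP α δ c β ((AB : ℝ) ^ α * Real.exp (α * max (S - c * j) 0)) A₀ AB AX
      hcn hα hδ hc hβ.le hK1 hAA m q a hq ha1 hqam
      (by omega) T hTq W hsmall.le (by
        intro V hV hle
        have cV : (1 : ℝ) ≤ V.card := by exact_mod_cast hV.card_pos
        have hlog : Real.log V.card ≤ S := by
          rw [hS]; exact Real.log_le_log (by linarith) hle
        have h1 := ih (P.erase m) hPe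
          (by rw [Finset.card_erase_of_mem hm]; omega) V hV
          (hlog.trans (by rw [hS]; exact hSz))
        have h2 : TW α T 1 V = ∑ t ∈ mul (P.erase m), NE α (t : ℤ) V := by
          unfold TW
          exact Finset.sum_congr rfl fun t _ => by rw [one_mul]
        rw [h2]
        refine h1.trans (mul_le_mul_of_nonneg_left ?_ (by positivity))
        refine mul_le_mul_of_nonneg_left (Real.exp_le_exp.2 ?_) (by positivity)
        refine mul_le_mul_of_nonneg_left ?_ hα.le
        exact max_le_max (by linarith) le_rfl) (by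
        intro U hU hUp
        rw [hWe]
        rcases U.eq_empty_or_nonempty with h0 | ⟨t₀, ht₀⟩
        · rw [h0, Finset.sum_empty]
          exact mul_nonneg hβ.le hWpos.le
        refine le_trans ?_ (hpg fun _ N => (t₀ : ZMod N))
        -- the subsets
        set V := (P.erase m).powerset.filter fun s => pd s ∈ U with hV
        have h1 : ∑ t ∈ U, NE α (t : ℤ) W = ∑ s ∈ V, w s := by
          have h2 : U = V.image pd := by
            ext t
            rw [Finset.mem_image]
            constructor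
            · intro ht
              obtain ⟨s, hs, rfl⟩ := Finset.mem_image.1 (hU ht)
              exact ⟨s, Finset.mem_filter.2 ⟨hs, ht⟩, rfl⟩
            · rintro ⟨s, hs, rfl⟩
              exact (Finset.mem_filter.1 hs).2
          rw [h2, Finset.sum_image]
          intro s hs s' hs' h
          exact pd_inj hPe (Finset.mem_powerset.1 (Finset.mem_filter.1 hs).1)
            (Finset.mem_powerset.1 (Finset.mem_filter.1 hs').1) h
        rw [h1]
        have h2 : ∑ s ∈ V, w s = ∑ s ∈ V, w s * ca (fun _ N => (t₀ : ZMod N)) m q s := by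
          refine Finset.sum_congr rfl fun s hs => ?_
          obtain ⟨hs1, hs2⟩ := Finset.mem_filter.1 hs
          rw [Finset.mem_powerset] at hs1
          have h3 : ((pd s : ℕ) : ZMod (q ^ a)) = (t₀ : ZMod (q ^ a)) := by
            have h4 := hUp _ hs2 t₀ ht₀
            have h5 : ((q ^ a : ℕ) : ℤ) ∣ (pd s : ℤ) - t₀ := by push_cast; exact h4
            have h6 := (ZMod.intCast_zmod_eq_zero_iff_dvd _ (q ^ a)).2 h5
            push_cast at h6
            exact sub_eq_zero.1 h6
          have h4 : ca (fun _ N => (t₀ : ZMod N)) m q s = 1 := by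
            unfold ca
            rw [if_pos ⟨fun h => Finset.notMem_erase m P (hs1 h), h3⟩]
          rw [h4, mul_one]
        rw [h2]
        refine Finset.sum_le_sum_of_subset_of_nonneg ?_ fun s _ _ => ?_
        · intro s hs
          have h3 := (Finset.mem_filter.1 hs).1
          rw [Finset.mem_powerset] at h3 ⊢
          exact h3.trans (Finset.erase_subset _ _)
        · refine mul_nonneg (NE_nonneg _ _ _) ?_
          unfold ca
          split_ifs <;> norm_num)
    have hTS : ∑ t ∈ mul P, NE α (t : ℤ) W = ∑ s ∈ P.powerset, w s := by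
      rw [sum_mul_eq hP (fun t => NE α (t : ℤ) W)]
    have hcd : ((mul P).card : ℝ) = T.card * 2 := by
      rw [card_mul hP, hT, card_mul hPe, Finset.card_erase_of_mem hm]
      have h1 : P.card = (P.card - 1) + 1 := by omega
      conv_lhs => rw [h1, pow_succ]
      push_cast
      rfl
    rw [hTS, ← hWe, hcd]
    refine hst.trans ?_
    have h1 : Real.exp (α * max (S - c * j) 0) * (1 - c * α) ≤
        Real.exp (α * max (S - c * ((j + 1 : ℕ) : ℝ)) 0) := by
      have h2 : 1 - c * α ≤ Real.exp (-(c * α)) := by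
        have := Real.add_one_le_exp (-(c * α))
        linarith
      calc _ ≤ Real.exp (α * max (S - c * j) 0) * Real.exp (-(c * α)) :=
            mul_le_mul_of_nonneg_left h2 (Real.exp_pos _).le
        _ = Real.exp (α * (max (S - c * j) 0 - c)) := by
            rw [← Real.exp_add]; congr 1; ring
        _ ≤ _ := by
            refine Real.exp_le_exp.2 (mul_le_mul_of_nonneg_left ?_ hα.le)
            push_cast
            rcases le_total (S - c * j) 0 with h | h
            · rw [max_eq_right h]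
              exact (by linarith : (0 : ℝ) - c ≤ 0).trans (le_max_right _ _)
            · rw [max_eq_left h]
              refine le_trans (le_of_eq ?_) (le_max_left _ _)
              ring
    have h3 : 0 ≤ (T.card : ℝ) * (W.card : ℝ) ^ (1 + α * δ) * (AB : ℝ) ^ α * 2 := by
      positivity
    have h4 := mul_le_mul_of_nonneg_left h1 h3
    rw [← hS]
    calc _ = (T.card : ℝ) * (W.card : ℝ) ^ (1 + α * δ) * (AB : ℝ) ^ α *
        2 * (Real.exp (α * max (S - c * j) 0) * (1 - c * α)) := by ring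
      _ ≤ _ := h4
      _ = _ := by ring

/-- piece IND: the energy theorem -/
theorem t_IND : S_STP → S_ENE := by
  intro hSTP δ θ hδ hθ
  obtain ⟨A₀, AB, AX, β, hβ0, hβ1, hAA, α₁, hα₁0, hα₁1, hcn⟩ :=
    exists_cn δ (2 / θ) 1 hδ (by positivity)
  obtain ⟨ε₀, hε₀, N₀, hgen⟩ := genericA β hβ0 hβ1
  obtain ⟨α, hα⟩ : ∃ α : ℝ, α = min α₁ (ε₀ * θ / 3) := ⟨_, rfl⟩
  have hα0 : 0 < α := by rw [hα]; exact lt_min hα₁0 (by positivity)
  have hαα₁ : α ≤ α₁ := by rw [hα]; exact min_le_left _ _
  have hαε : α ≤ ε₀ * θ / 3 := by rw [hα]; exact min_le_right _ _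
  have hc := hcn α hα0 hαα₁
  have hAB1 : (1 : ℝ) ≤ AB := by exact_mod_cast hc.AB1
  obtain ⟨n₁, hn₁⟩ : ∃ n₁ : ℕ, n₁ = 2 * N₀ + 3 := ⟨_, rfl⟩
  refine ⟨α, hα0, hαα₁.trans hα₁1, max ((AB : ℝ) ^ α) (Real.exp (α * (n₁ / θ))),
    (Real.one_le_rpow hAB1 hα0.le).trans (le_max_left _ _), ?_⟩
  intro P hP W hW hS
  have hn1 : (1 : ℝ) ≤ W.card := by exact_mod_cast hW.card_pos
  have hn0 : (0 : ℝ) < W.card := by linarith
  have hSn : Real.log W.card ≤ P.card / θ := by
    rw [le_div_iff₀ hθ, mul_comm]; exact hS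
  by_cases hcase : P.card < n₁
  · -- few integers
    refine (sum_NE_le fun t _ => NE_card hα0.le (t : ℤ) W).trans ?_
    have h1 : (W.card : ℝ) ≤ (W.card : ℝ) ^ (1 + α * δ) := by
      calc (W.card : ℝ) = (W.card : ℝ) ^ (1 : ℝ) := (Real.rpow_one _).symm
        _ ≤ _ := Real.rpow_le_rpow_of_exponent_le hn1 (by
            have : 0 ≤ α * δ := by positivity
            linarith)
    have h2 : (W.card : ℝ) ^ α ≤ max ((AB : ℝ) ^ α) (Real.exp (α * (n₁ / θ))) := by
      refine le_trans ?_ (le_max_right _ _)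
      rw [Real.rpow_def_of_pos hn0, mul_comm]
      refine Real.exp_le_exp.2 (mul_le_mul_of_nonneg_left (hSn.trans ?_) hα0.le)
      refine div_le_div_of_nonneg_right ?_ hθ.le
      exact_mod_cast hcase.le
    calc _ ≤ (mul P).card * ((W.card : ℝ) ^ (1 + α * δ) *
          max ((AB : ℝ) ^ α) (Real.exp (α * (n₁ / θ)))) :=
          mul_le_mul_of_nonneg_left (mul_le_mul h1 h2 (by positivity) (by positivity))
            (Nat.cast_nonneg _)
      _ = _ := by ring
  push Not at hcase
  obtain ⟨n, hn⟩ : ∃ n : ℕ, n = P.card := ⟨_, rfl⟩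
  obtain ⟨v, hv⟩ : ∃ v : ℕ, v = n / 2 := ⟨_, rfl⟩
  have hvN : N₀ ≤ v := by omega
  have hn3 : 3 ≤ n := by omega
  have hv3 : (n : ℝ) / 3 ≤ v := by
    have h1 : n ≤ 3 * v := by omega
    have h2 : (n : ℝ) ≤ 3 * v := by exact_mod_cast h1
    linarith
  rw [← hn] at hSn
  have h := induction_stepW hSTP (S₀ := n / θ) hδ (by positivity : (0 : ℝ) ≤ 2 / θ) hβ0 hα0 hAA hc
    hgen hε₀ hvN (by
      have h1 : α * (n / θ) ≤ ε₀ * θ / 3 * (n / θ) :=
        mul_le_mul_of_nonneg_right hαε (by positivity)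
      have h2 : ε₀ * θ / 3 * (n / θ) = ε₀ * (n / 3) := by field_simp
      rw [h2] at h1
      exact h1.trans (mul_le_mul_of_nonneg_left hv3 hε₀.le)) (n - v) P hP (by omega) W hW
      hSn
  have hmax : max (Real.log W.card - 2 / θ * ((n - v : ℕ) : ℝ)) 0 = 0 := by
    apply max_eq_right
    have h1 : n ≤ 2 * (n - v) := by omega
    have h2 : (n : ℝ) ≤ 2 * ((n - v : ℕ) : ℝ) := by exact_mod_cast h1
    have h3 : (n : ℝ) / θ ≤ 2 / θ * ((n - v : ℕ) : ℝ) := by
      rw [div_mul_eq_mul_div]
      exact div_le_div_of_nonneg_right h2 hθ.le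
    linarith
  rw [hmax, mul_zero, Real.exp_zero, mul_one] at h
  refine h.trans ?_
  have h1 : (AB : ℝ) ^ α ≤ max ((AB : ℝ) ^ α) (Real.exp (α * (n₁ / θ))) := le_max_left _ _
  have h2 : 0 ≤ ((mul P).card : ℝ) * (W.card : ℝ) ^ (1 + α * δ) := by
    positivity
  have h3 := mul_le_mul_of_nonneg_left h1 h2
  linarith

end Pool.Agent.Run7.h975.PW
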